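import Mathlib
import Pool.Agent.W617.GR.Defs
import Pool.Agent.W617.GR.Final

/-!
# The growth rate conjecture for quantum invariants fails for SU(2) and the Hantzsche-Wendt manifold

`M` is the closed oriented 3-manifold given by surgery along the framed link `linkM`: a Hopf link with
framings 0, 0, each component of which has two meridian circles with framings 2 and -2. `Zinv linkM r` is
`Z_k(M) = tau_r(M) / tau_r(S^1 x S^2)` for `G = SU(2)`, `r = k + 2`.
-/

set_option autoImplicit false

open TreeWRT Filter Topology Pool.Agent.W617.GR

namespace Pool.Agent.Results.MP_1eb459_gt.GrowthRateFails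

/-- G = SU(2), M = the Hantzsche-Wendt manifold. Let cs be the Chern-Simons functional, or any other function
on the flat connections on M that is constant on connected sets of flat connections, and let M_c be the set of
flat connections on which it has the value c.
1. The largest value that h^1 - h^0 takes on a nonempty Zariski open subset of one of the sets M_c is 1.
So the number d of the conjecture is 1/2.
2. |Z_k(M)| / r^(1/2) tends to infinity. So Z_k(M) is not O(r^d). -/
theorem result (cs : Flat linkM → AddCircle (1 : ℝ)) (hcs : ConstOnConnected cs) :
    IsGreatest (genericValues linkM cs) 1 ∧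
    Tendsto (fun r : ℕ => ‖Zinv linkM r‖ / (r : ℝ) ^ ((1 : ℝ) / 2)) atTop atTop :=
  ⟨⟨one_mem cs, fun v hv => values_le cs hcs v hv⟩, growth⟩

end Pool.Agent.Results.MP_1eb459_gt.GrowthRateFails
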